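import Mathlib
import Pool.Agent.P.MP_54b694_lc.Defs
import Pool.Agent.P.MP_b10269_lc.H21.Defs
import Pool.Agent.P.MP_b10269_lc.H21.Om1

namespace Pool.Agent.Results.MP_b10269_lc.Consistent

open Pool.Agent.P.MP_54b694_lc Pool.Agent.P.MP_b10269_lc.H21

/-- There is a model of ZFC in which the pseudo-intersection number of `k = ω₁` (the regular
uncountable cardinal all of whose elements are countable) is strictly smaller than the tower
number of `k`. -/
theorem result : ∃ (M : Type 1) (E : M → M → Prop), IsZFC E ∧ ∃ k p t : M, IsRegUnc E k ∧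
    (∀ a, E a k → IsCountable E a) ∧
    IsLeastCard E (PFam E k) p ∧ IsLeastCard E (IsTower E k) t ∧ CardLT E p t :=
  exists_model_om1

end Pool.Agent.Results.MP_b10269_lc.Consistent
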