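import Mathlib
import Pool.Agent.P.MP_b10269_lc.Defs
import Pool.Agent.P.MP_b10269_lc.Defs2
import Pool.Agent.P.MP_b10269_lc.Main

namespace Pool.Agent.Results.MP_b10269_lc.SingularP

open Pool.Agent.P.MP_b10269_lc

/-- There is a model of ZFC with a strongly inaccessible cardinal `k` whose pseudo-intersection
number `|F|` is a singular cardinal of countable cofinality. -/
theorem result : ∃ (M : Type 2) (E : M → M → Prop), IsZFC E ∧ ∃ k F : M, IsInacc E k ∧
    LeastWith E (PFam E k) F ∧ SingularOmega E F :=
  let ⟨M, E, h, k, F, _, h1, h2, _, _, h5⟩ := exists_model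
  ⟨M, E, h, k, F, h1, h2, h5⟩

end Pool.Agent.Results.MP_b10269_lc.SingularP
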